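import Pool.Graph.R_pool_sql_team_seeded_ab47071d.TH901.H2A.Asm
import Pool.Graph.R_pool_sql_team_seeded_ab47071d.TH111.H2A.PAIR
import Pool.Graph.R_pool_sql_team_seeded_ab47071d.TH159.H2A.UP
import Pool.Graph.R_pool_sql_team_seeded_ab47071d.TH511.H2A.Dih
import Pool.Graph.R_pool_sql_team_seeded_ab47071d.TH511.H2A.Real
import Pool.Graph.R_pool_sql_team_seeded_ab47071d.TH55.H2A.R3
import Pool.Graph.R_pool_sql_team_seeded_ab47071d.TH606.H2A.DET1
import Pool.Graph.R_pool_sql_team_seeded_ab47071d.TH920.H2A.Sep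
import Pool.Graph.R_pool_sql_team_seeded_ab47071d.TH921.H2A.DET34
import Pool.Graph.R_pool_sql_team_seeded_ab47071d.TH993.H2A.DET2

/-!
# The second homology of Artin groups: the theorem
-/

set_option autoImplicit false

namespace Pool.Agent.H412.H2A

open Pool.Agent.TH901.H2A

theorem h_pair : S_pair := Pool.Agent.TH111.H2A.pair_of Pool.Agent.TH55.H2A.r3_of

theorem h_det1 : S_det1 := Pool.Agent.TH606.H2A.det1_of Pool.Agent.TH511.H2A.Dih.dih_of

theorem h_det2 : S_det2 :=
  Pool.Agent.TH993.H2A.det2_of Pool.Agent.TH511.H2A.Dih.dih_of Pool.Agent.TH511.H2A.Rl.real_of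

theorem h_det3 : S_det3 := Pool.Agent.TH921.H2A.det3_of h_pair Pool.Agent.TH921.H2A.conj_of
  Pool.Agent.TH511.H2A.Rl.real_of

theorem h_det4 : S_det4 := Pool.Agent.TH921.H2A.det4_of h_pair Pool.Agent.TH921.H2A.conj_of
  Pool.Agent.TH511.H2A.Rl.real_of

section

variable {B : Type} [Fintype B] [DecidableEq B] (M : CoxeterMatrix B)

theorem le_ker : relK M ≤ (Th M).ker := relK_le M Pool.Agent.TH159.H2A.UP.up_of

theorem ker_le (x : B × B → ℤ) (hx : Th M x = 0) : x ∈ relK M :=
  mem_relK M h_det1 h_det2 h_det3 h_det4 Pool.Agent.TH920.H2A.sep_of x hx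

theorem iso : Nonempty (hopf M ≃* Multiplicative ↥(bdryQ M).ker) :=
  main M (le_ker M) (ker_le M)

/-- A conjugate of a relator or of its inverse: `(g, (i, j), ε)` stands for
`g * relator i j ^ ε * g⁻¹`. -/
def cj (t : FreeGroup B × (B × B) × Bool) : FreeGroup B :=
  t.1 * (if t.2.2 then relator M t.2.1.1 t.2.1.2 else (relator M t.2.1.1 t.2.1.2)⁻¹) * t.1⁻¹

/-- Its class in the free abelian group `C_2` on the pairs. -/
def cl (t : FreeGroup B × (B × B) × Bool) : B × B → ℤ :=
  if t.2.2 then Pi.single t.2.1 1 else -Pi.single t.2.1 1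

omit [Fintype B] in
lemma relator_conj (p : B × B) (g : FreeGroup B) :
    (QuotientGroup.mk (g * relator M p.1 p.2 * g⁻¹) : EE M) =
      QuotientGroup.mk (relator M p.1 p.2) := by
  have h := mk_central M (relator_mem M p.1 p.2) (QuotientGroup.mk g)
  rw [QuotientGroup.mk_mul, QuotientGroup.mk_mul, ← h, mul_assoc, ← QuotientGroup.mk_mul,
    mul_inv_cancel, QuotientGroup.mk_one, mul_one]

lemma cj_cl (t : FreeGroup B × (B × B) × Bool) :
    (QuotientGroup.mk (cj M t) : EE M) = ThE M (Multiplicative.ofAdd (cl t)) := by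
  obtain ⟨g, p, b⟩ := t
  cases b
  · have h : cj M (g, p, false) = (g * relator M p.1 p.2 * g⁻¹)⁻¹ := by
      simp only [cj, Bool.false_eq_true, if_false, mul_inv_rev, inv_inv, mul_assoc]
    rw [h, QuotientGroup.mk_inv, relator_conj]
    simp only [cl, Bool.false_eq_true, if_false]
    rw [ofAdd_neg, map_inv, ThE_single]
  · have h : cj M (g, p, true) = g * relator M p.1 p.2 * g⁻¹ := by
      simp only [cj, if_true]
    rw [h, relator_conj]
    simp only [cl, if_true]
    rw [ThE_single]

lemma prod_cl (l : List (FreeGroup B × (B × B) × Bool)) :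
    (QuotientGroup.mk (l.map (cj M)).prod : EE M) =
      ThE M (Multiplicative.ofAdd (l.map cl).sum) := by
  induction l with
  | nil => simp
  | cons t l ih =>
    rw [List.map_cons, List.prod_cons, List.map_cons, List.sum_cons, QuotientGroup.mk_mul, ih,
      cj_cl, ofAdd_add, map_mul]

/-- identities among the relators have trivial class -/
theorem hurewicz (l : List (FreeGroup B × (B × B) × Bool)) (h : (l.map (cj M)).prod = 1) :
    (l.map cl).sum ∈ relK M := by
  have h1 := prod_cl M l
  rw [h, QuotientGroup.mk_one] at h1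
  apply ker_le
  apply Additive.toMul.injective
  apply Subtype.ext
  exact h1.symm

end

end Pool.Agent.H412.H2A
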